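import Pool.Agent.Helper264.NT.NearPV2
import Pool.Agent.V11273.PV.G18

/-!
# The modular Schanuel conjecture with derivatives in bounded degree and height at ALL algebraic points near almost every
point, for arbitrary base points

Let `h` be an analytic map from a nonempty connected open set `D` of `ℂ^n`, `n ≥ 1`, to `ℍ^n` the image of which has inner points;
for example `h(x) = x`, or `h` a branch of the inverse of `j` (points with algebraic invariants), or of `log(x) / 2 π i`
(algebraic nomes), or anything else, in each coordinate. One can choose `4 n` of the `5 n` functions `h_k`, `j(h_k)`, `j'(h_k)`,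
`j''(h_k)`, `exp(2 π i h_k)` with the following property. (At least `3 n` of them are among the `4 n` numbers of the modular
Schanuel conjecture with derivatives for the points `h_k(x)`, and this bound `3 n` is the conjecture.) There is a set `E` in
`ℂ^n` of Hausdorff dimension at most `2 n - 2` such that near every point `z` of `D` outside of `E` there are no exceptional
points: for all `w > 0` (arbitrarily small), all number fields `K` and all `k`, for large `T`, at ALL points `x` with
coordinates in `K` of height at most `T` at distance at most `T ^ (-w)` from `z` the chosen `4 n` numbers satisfy no nonzero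
polynomial relation of partial degrees at most `k` with coefficients `∑ ξ i * c i`, `i < k`, `c i` integers of `K` of size at
most `T ^ k`, `ξ i` any given complex numbers (for instance the powers of `π`). For real points `z` the same holds outside of
a set in `ℝ^n` of dimension at most `n - 1`.
-/

set_option autoImplicit false

open Filter NumberField
open scoped ENNReal

namespace Pool.Agent.Results.MP_ede373_nt.NearEveryPoint

/-- The lattice `ℤ + ℤ τ`. -/
noncomputable def lattice (τ : ℂ) (h : 0 < τ.im) : PeriodPair where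
  ω₁ := 1
  ω₂ := τ
  indep := (Pool.Agent.Y685.LL ⟨τ, h⟩).indep

/-- The modular invariant `j = 1728 g₂³ / (g₂³ - 27 g₃²)` on the upper half-plane. -/
noncomputable def j (τ : ℂ) : ℂ :=
  if h : 0 < τ.im then 1728 * (lattice τ h).g₂ ^ 3 / ((lattice τ h).g₂ ^ 3 - 27 * (lattice τ h).g₃ ^ 2) else 0

theorem j_eq {τ : ℂ} (h : 0 < τ.im) : j τ = Pool.Agent.Y776.jf τ := by
  have h1 : Pool.Agent.Y685.LC τ = lattice τ h := by
    rw [Pool.Agent.Y685.LC, UpperHalfPlane.ofComplex_apply_of_im_pos h]
    rfl
  rw [j, dif_pos h, Pool.Agent.Y776.jf, h1]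

theorem j_ev {τ : ℂ} (h : 0 < τ.im) : j =ᶠ[nhds τ] Pool.Agent.Y776.jf := by
  filter_upwards [Pool.Agent.Y776.AxJ.isOpen_H.mem_nhds h] with σ hσ
  exact j_eq hσ

theorem dj_eq {τ : ℂ} (h : 0 < τ.im) : deriv j τ = deriv Pool.Agent.Y776.jf τ := (j_ev h).deriv_eq

theorem dj_ev {τ : ℂ} (h : 0 < τ.im) : deriv j =ᶠ[nhds τ] deriv Pool.Agent.Y776.jf := by
  filter_upwards [Pool.Agent.Y776.AxJ.isOpen_H.mem_nhds h] with σ hσ
  exact dj_eq hσ

theorem ddj_eq {τ : ℂ} (h : 0 < τ.im) : deriv (deriv j) τ = deriv (deriv Pool.Agent.Y776.jf) τ := (dj_ev h).deriv_eq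

/-- The functions `h_k` (names `inr k`), and `j(h_k)`, `j'(h_k)`, `j''(h_k)` (complex derivatives of `j`) and
`exp(2 π i h_k)` (names `inl (k, 0)`, …, `inl (k, 3)`). -/
noncomputable def value {n : ℕ} (h : (Fin n → ℂ) → Fin n → ℂ) (a : (Σ _ : Fin n, Fin 4) ⊕ Fin n) (z : Fin n → ℂ) : ℂ :=
  Sum.elim (fun v => ![j (h z v.1), deriv j (h z v.1), deriv (deriv j) (h z v.1),
    Complex.exp (2 * (Real.pi : ℂ) * Complex.I * h z v.1)] v.2) (h z) a

/-- quotients of two integers of `K`, all conjugates of which are at most `T` -/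
def HeightLe (K : Type) [Field K] [NumberField K] (T : ℝ) (x : K) : Prop :=
  ∃ a b : 𝓞 K, b ≠ 0 ∧ house (a : K) ≤ T ∧ house (b : K) ≤ T ∧ x = a / b

/-- for a number field `K` embedded into `ℂ` by `io`: the partial degrees of `P` are at most `k`, and its coefficients are
`∑ ξ i * c i`, `i < k`, where the `c i` are integers of `K`, all conjugates of which are at most `T ^ k` -/
def Small {σ : Type} (K : Type) [Field K] [NumberField K] (io : K →+* ℂ) (k : ℕ) (ξ : ℕ → ℂ) (T : ℝ)
    (P : MvPolynomial σ ℂ) : Prop :=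
  (∀ y, P.degreeOf y ≤ k) ∧ ∀ m, ∃ c : Fin k → 𝓞 K, (∀ i (φ : K →+* ℂ), ‖φ (c i : K)‖ ≤ T ^ (k : ℝ)) ∧
    P.coeff m = ∑ i : Fin k, ξ i * io (c i : K)

/-- At all points `s` with coordinates in the number field `K` (embedded into `ℂ` by `io`) of height at most `T` and with
`|s i - z i| ≤ T ^ (-w)` for all `i`, no nonzero small polynomial vanishes at the numbers `v a s`. -/
def NoRelationNear {X S : Type} (v : S → (X → ℂ) → ℂ) (ξ : ℕ → ℂ) (z : X → ℂ) (w : ℝ) (K : Type) [Field K]
    [NumberField K] (io : K →+* ℂ) (k : ℕ) (T : ℝ) : Prop :=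
  ∀ s : X → K, (∀ i, HeightLe K T (s i)) → (∀ i, ‖io (s i) - z i‖ ≤ T ^ (-w)) →
    ∀ P : MvPolynomial S ℂ, Small K io k ξ T P →
      MvPolynomial.eval (fun a => v a fun i => io (s i)) P = 0 → P = 0

/-- The numbers `v a s` are independent in bounded degree and height at ALL algebraic points `s` near almost every point of
`U`, `d` being the number of coordinates:
(1) there is a set `E` in `ℂ ^ d` of Hausdorff dimension at most `2 (d - 1)` such that for all `z ∈ U` outside of `E`, all
`w > 0`, all number fields `K ⊂ ℂ` and all `k`, `NoRelationNear v ξ z w K k T` holds for all large `T`;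
(2) there is a set `E` in `ℝ ^ d` of dimension at most `d - 1` such that the same is true for all real `z ∈ U` outside of `E`
and all number fields `K ⊂ ℝ`. -/
def IndependentNearAlmostAll {X S : Type} [Fintype X] (U : Set (X → ℂ)) (v : S → (X → ℂ) → ℂ) (ξ : ℕ → ℂ) : Prop :=
  (∃ E : Set (X → ℂ), dimH E ≤ ((2 * (Fintype.card X - 1) : ℕ) : ℝ≥0∞) ∧ ∀ z ∈ U, z ∉ E → ∀ w : ℝ, 0 < w →
    ∀ (K : IntermediateField ℚ ℂ) [NumberField K] (k : ℕ), ∀ᶠ T : ℝ in atTop,
      NoRelationNear v ξ z w K (algebraMap K ℂ) k T) ∧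
  ∃ E : Set (X → ℝ), dimH E ≤ ((Fintype.card X - 1 : ℕ) : ℝ≥0∞) ∧
    ∀ z : X → ℝ, (fun i => (z i : ℂ)) ∈ U → z ∉ E → ∀ w : ℝ, 0 < w →
    ∀ (K : IntermediateField ℚ ℝ) [NumberField K] (k : ℕ), ∀ᶠ T : ℝ in atTop,
      NoRelationNear v ξ (fun i => (z i : ℂ)) w K (Complex.ofRealHom.comp (algebraMap K ℝ)) k T

/-- Let `h` be an analytic map from a nonempty connected open set `D` of `ℂ^n`, `n ≥ 1`, to `ℍ^n`, the image of which has
inner points. There is a set `A` of `4 n` of the `5 n` functions such that for all complex numbers `ξ i` the numbers given by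
`A` are independent in bounded degree and height at ALL algebraic points near every point outside of a set of dimension at
most `2 (n - 1)` (complex points), `n - 1` (real points): see `IndependentNearAlmostAll`. -/
theorem result {n : ℕ} (hn : 1 ≤ n) (D : Set (Fin n → ℂ)) (hD : IsOpen D) (hDc : IsPreconnected D) (hDn : D.Nonempty)
    (h : (Fin n → ℂ) → Fin n → ℂ) (hh : AnalyticOnNhd ℂ h D) (him : ∀ z ∈ D, ∀ k, 0 < (h z k).im)
    (hint : (interior (h '' D)).Nonempty) :
    ∃ A : Finset ((Σ _ : Fin n, Fin 4) ⊕ Fin n), A.card = 4 * n ∧ ∀ ξ : ℕ → ℂ,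
      IndependentNearAlmostAll D (fun (a : A) => value h a.1) ξ := by
  classical
  have : Nonempty (Fin n) := ⟨⟨0, hn⟩⟩
  obtain ⟨A, hA, hAi⟩ := Pool.Agent.V11273.PV.exists_pull (X := Fin n) (V := Σ _ : Fin n, Fin 4)
    (U := Pool.Agent.V11273.PV.UC fun _ : Fin n => {t : ℂ | 0 < t.im})
    (U' := D) (f := Pool.Agent.V11273.PV.fC fun (_ : Fin n) (m : Fin 4) => Pool.Agent.V11273.PV.b4n m) (by
      rw [Pool.Agent.V11273.PV.UC_eq]
      exact isPreconnected_univ_pi fun _ => Pool.Agent.Y776.AxJ.preconn_H) (by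
      rintro ⟨i, m⟩ z hz
      exact AnalyticAt.fun_comp (g := Pool.Agent.V11273.PV.b4n m) (f := fun z : Fin n → ℂ => z i)
        (Pool.Agent.V11273.PV.b4n_an m (z i) (hz i))
        ((ContinuousLinearMap.proj (R := ℂ) (φ := fun _ : Fin n => ℂ) i).analyticAt z))
    (Pool.Agent.V11273.PV.indep_curves fun _ => Pool.Agent.V11273.PV.mahlerC) hDc hD hDn (h := h) hh
    (fun z hz i => him z hz i) hint
  have hval : ∀ z ∈ D, ∀ a, value h a z = Pool.Agent.V11273.PV.vJ h z a := by
    rintro z hz (⟨k, m⟩ | k)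
    · have h0 := him z hz k
      change ![j (h z k), deriv j (h z k), deriv (deriv j) (h z k),
        Complex.exp (2 * (Real.pi : ℂ) * Complex.I * h z k)] m = Pool.Agent.V11273.PV.b4n m (h z k)
      fin_cases m
      · exact j_eq h0
      · exact dj_eq h0
      · exact ddj_eq h0
      · rfl
    · rfl
  have han : ∀ a : A, AnalyticOnNhd ℂ (value h a.1) D := by
    rintro ⟨a, ha⟩
    have h1 : AnalyticOnNhd ℂ (fun z => Pool.Agent.V11273.PV.vJ h z a) D := by
      rcases a with v | i
      · intro z hz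
        exact AnalyticAt.fun_comp (g := Pool.Agent.V11273.PV.b4n v.2) (f := fun z => h z v.1)
          (Pool.Agent.V11273.PV.b4n_an v.2 _ (him z hz v.1))
          ((ContinuousLinearMap.proj (R := ℂ) (φ := fun _ : Fin n => ℂ) v.1).analyticAt (h z) |>.comp (hh z hz))
      · intro z hz
        exact ((ContinuousLinearMap.proj (R := ℂ) (φ := fun _ : Fin n => ℂ) i).analyticAt (h z)).comp (hh z hz)
    exact h1.congr hD fun z hz => (hval z hz a).symm
  refine ⟨A, ?_, fun ξ => ?_⟩
  · rw [hA]
    simp [mul_comm]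
  · refine Pool.Agent.Helper264.NT.near_two (S := A) (f := fun a : A => value h a.1) hDc hD hDn han ?_ ξ
    intro P hP
    refine hAi P fun z hz => ?_
    rw [← hP z hz]
    unfold Pool.Agent.Y890.MV.evM
    congr 1
    funext a
    exact (hval z hz a.1).symm

end Pool.Agent.Results.MP_ede373_nt.NearEveryPoint
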