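import Pool.Agent.Results.MP_f58a57_nt.NumberFieldPoints
import Pool.Agent.H107.MetricFam
import Pool.Agent.V11286.NE.Vol
import Pool.Agent.V11168.NX.Near

/-!
# The modular Schanuel conjecture with derivatives at ALL points of number fields close to a point

For algebraic `z` of the upper half-plane which is not special the modular Schanuel conjecture with derivatives predicts that
`j (z)`, `j' (z)`, `j'' (z)` are algebraically independent; the period conjecture (Bertolin's modular conjecture) adds the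
numbers `π` and `e^(2πi z)`. The starting file `MP_f58a57_nt.NumberFieldPoints` shows that in a number field `K` at most
`C T ^ ε` of the points of height at most `T` are exceptional up to a given degree and up to polynomial height. Nothing is
said there about given points, and the exceptional points may lie anywhere.

Here we prove: there is a set `E` of complex numbers of Hausdorff dimension **zero** such that for all `z₀` in the upper
half-plane outside of `E`, for all number fields `K ⊂ ℂ`, all degrees `d`, all exponents `A` and all `w > 0` (arbitrarily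
small), with finitely many exceptions **all** the points `z ∈ K` with `|z - z₀| ≤ H (z) ^ (-w)` satisfy the conjecture up to
degree `d` and height `H (z) ^ A`, with a measure of algebraic independence which is polynomial in the height: the values at
`π`, `e^(-2πi z)`, `j (z)`, `j' (z)`, `j'' (z)` of the nonzero polynomials of degree at most `d` and of height at most `H (z) ^ A`
are of absolute value more than `H (z) ^ (-B)`. (In `ℚ(i)` for instance every `z₀` has infinitely many such approximations `z` with each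
`w < 1`.) More generally the same holds for the `4 p + 1` numbers at the points
`s_1 z, …, s_p z`, where the `s_i` are positive real numbers, linearly independent over `ℚ`.

Proof: the theorem of `NumberFieldPoints`, a dyadic decomposition (the exponent `B` depends on `ε`), and the metric theorem
for thin families of helper107 (`Pool.Agent.H107.ME.dim_family`); countable union over the fields, degrees and heights of the
intersection over `ε`.
-/

set_option autoImplicit false

open Filter Topology MeasureTheory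
open scoped ENNReal NNReal

namespace Pool.Agent.Results.MP_ede373_nt.NearPoints

/-- the normalised Eisenstein series of weight `4` -/
noncomputable def E4 (τ : ℂ) : ℂ :=
  1 + 240 * ∑' m : ℕ, ((ArithmeticFunction.sigma 3 (m + 1) : ℕ) : ℂ) *
    Complex.exp (2 * (Real.pi : ℂ) * Complex.I * τ) ^ (m + 1)

/-- the normalised Eisenstein series of weight `6` -/
noncomputable def E6 (τ : ℂ) : ℂ :=
  1 - 504 * ∑' m : ℕ, ((ArithmeticFunction.sigma 5 (m + 1) : ℕ) : ℂ) *
    Complex.exp (2 * (Real.pi : ℂ) * Complex.I * τ) ^ (m + 1)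

/-- the modular invariant `j = q⁻¹ + 744 + 196884 q + ⋯` -/
noncomputable def j (τ : ℂ) : ℂ := 1728 * E4 τ ^ 3 / (E4 τ ^ 3 - E6 τ ^ 2)

/-- `exp (-2πi z), j (z), j' (z), j'' (z)` (complex derivatives) -/
noncomputable def jet (z : ℂ) : Fin 4 → ℂ :=
  ![Complex.exp (-(2 * (Real.pi : ℂ) * Complex.I * z)), j z, deriv j z, deriv (deriv j) z]

/-- the `4 p + 1` numbers: `π`, and `exp (-2πi x), j (x), j' (x), j'' (x)` at the points `x = s_i z` -/
noncomputable def numbers {p : ℕ} (s : Fin p → ℝ) (z : ℂ) (i : Option (Fin p × Fin 4)) : ℂ :=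
  i.elim (Real.pi : ℂ) fun q => jet ((s q.1 : ℂ) * z) q.2

/-- `H (z)`, the multiplicative height of `K` -/
noncomputable def height {K : IntermediateField ℚ ℂ} [NumberField K] (z : K) : ℝ := Height.mulHeight₁ z

/-- Every nonzero polynomial with coefficients in `K` of height at most `H (z) ^ A`, of degree at most `d` in each variable,
takes at the `4 p + 1` numbers of `z` a value of absolute value more than `H (z) ^ (-B)`. -/
def Independent {K : IntermediateField ℚ ℂ} [NumberField K] {p : ℕ} (s : Fin p → ℝ) (d : ℕ) (A B : ℝ) (z : K) : Prop :=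
  ∀ P : MvPolynomial (Option (Fin p × Fin 4)) K, P ≠ 0 → (∀ i, P.degreeOf i ≤ d) →
    (∀ e, height (P.coeff e) ≤ height z ^ A) → height z ^ (-B) < ‖MvPolynomial.aeval (numbers s z) P‖

/-- a compact subset of the upper half-plane -/
def KN (N : ℕ) : Set ℂ := {z | ‖z‖ ≤ N + 1 ∧ 1 / ((N : ℝ) + 1) ≤ z.im}

lemma KN_compact (N : ℕ) : IsCompact (KN N) := by
  have h1 : KN N = Metric.closedBall 0 ((N : ℝ) + 1) ∩ {z | 1 / ((N : ℝ) + 1) ≤ z.im} := by
    ext z
    simp [KN]
  rw [h1]
  exact (isCompact_closedBall _ _).inter_right (isClosed_le continuous_const Complex.continuous_im)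

lemma KN_pos (N : ℕ) : ∀ z ∈ KN N, 0 < z.im := fun z hz => lt_of_lt_of_le (by positivity) hz.2

lemma KN_nhds {z : ℂ} (hz : 0 < z.im) : ∃ N : ℕ, ∃ r : ℝ, 0 < r ∧ Metric.ball z r ⊆ KN N := by
  obtain ⟨N, hN⟩ := exists_nat_gt (max (‖z‖ + 1) (2 / z.im))
  have h1 : ‖z‖ + 1 < N := (le_max_left _ _).trans_lt hN
  have h2 : 2 / z.im < N := (le_max_right _ _).trans_lt hN
  refine ⟨N, min 1 (z.im / 2), lt_min one_pos (by linarith), fun x hx => ?_⟩
  rw [Metric.mem_ball, dist_eq_norm, lt_min_iff] at hx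
  obtain ⟨h3, h4⟩ := hx
  constructor
  · have h5 : ‖x‖ ≤ ‖x - z‖ + ‖z‖ := by
      have := norm_add_le (x - z) z
      rwa [sub_add_cancel] at this
    linarith
  · have h5 := Complex.abs_im_le_norm (x - z)
    rw [Complex.sub_im] at h5
    have h6 := (abs_le.1 (h5.trans h4.le)).1
    have h7 : z.im / 2 ≤ x.im := by linarith
    refine le_trans ?_ h7
    rw [div_lt_iff₀ hz] at h2
    rw [div_le_iff₀ (by positivity)]
    nlinarith

/-- the theorem of `NumberFieldPoints` for one point -/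
def Stm : Prop := ∀ (K : IntermediateField ℚ ℂ) [NumberField K] (p d : ℕ) (s : Fin p → ℝ), (∀ i, 0 < s i) →
  (∀ c : Fin p → ℤ, ∑ i, (c i : ℝ) * s i = 0 → c = 0) → ∀ C₀ : Set ℂ, IsCompact C₀ → (∀ z ∈ C₀, 0 < z.im) →
  ∀ A ε : ℝ, 0 < ε → ∃ B C : ℝ, ∀ T : ℝ, 1 ≤ T →
    {z : K | ((z : ℂ) ∈ C₀ ∧ height z ≤ T) ∧ ∃ P : MvPolynomial (Option (Fin p × Fin 4)) K, P ≠ 0 ∧
      (∀ i, P.degreeOf i ≤ d) ∧ (∀ e, height (P.coeff e) ≤ T ^ A) ∧
      ‖MvPolynomial.aeval (numbers s z) P‖ ≤ T ^ (-B)}.Finite ∧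
    ({z : K | ((z : ℂ) ∈ C₀ ∧ height z ≤ T) ∧ ∃ P : MvPolynomial (Option (Fin p × Fin 4)) K, P ≠ 0 ∧
      (∀ i, P.degreeOf i ≤ d) ∧ (∀ e, height (P.coeff e) ≤ T ^ A) ∧
      ‖MvPolynomial.aeval (numbers s z) P‖ ≤ T ^ (-B)}.ncard : ℝ) ≤ C * T ^ ε

lemma height_ge {K : IntermediateField ℚ ℂ} [NumberField K] (z : K) : 1 ≤ height z := Height.one_le_mulHeight₁ z

lemma height_fin {K : IntermediateField ℚ ℂ} [NumberField K] (X : ℝ) : {z : K | height z ≤ X}.Finite := by
  exact Northcott.finite_le (h := Height.mulHeight₁ (K := K)) X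

lemma core (hS : Stm) (K : IntermediateField ℚ ℂ) [NumberField K] {p : ℕ} (s : Fin p → ℝ) (hs0 : ∀ i, 0 < s i)
    (hs : ∀ c : Fin p → ℤ, ∑ i, (c i : ℝ) * s i = 0 → c = 0) (d N A : ℕ) {w ε : ℝ} (hw : 0 < w) (hε : 0 < ε) :
    ∃ B : ℝ, ∃ E : Set ℂ, dimH E ≤ ENNReal.ofReal (ε / w) ∧ ∀ z₀ : ℂ, z₀ ∉ E →
      {z : K | ((z : ℂ) ∈ KN N ∧ ¬ Independent s d A B z) ∧ dist (z : ℂ) z₀ ≤ (height z) ^ (-w)}.Finite := by
  obtain ⟨B₀, C₀, h0⟩ := hS K p d s hs0 hs (KN N) (KN_compact N) (KN_pos N) A ε hε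
  set B₁ : ℝ := max B₀ 0 with hB₁
  set R : Set K := {z : K | (z : ℂ) ∈ KN N ∧ ¬ Independent s d A (2 * B₁) z} with hR
  have hC₀ : 0 ≤ C₀ := by
    have h1 := (h0 1 le_rfl).2
    simp only [Real.one_rpow, mul_one] at h1
    exact (Nat.cast_nonneg _).trans h1
  obtain ⟨C', hC'⟩ := Pool.Agent.V11168.NX.dyadic (P := K) (fun z => height z) height_ge height_fin
    (fun T => {z : K | ((z : ℂ) ∈ KN N ∧ height z ≤ T) ∧ ∃ P : MvPolynomial (Option (Fin p × Fin 4)) K, P ≠ 0 ∧
      (∀ i, P.degreeOf i ≤ d) ∧ (∀ e, height (P.coeff e) ≤ T ^ (A : ℝ)) ∧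
      ‖MvPolynomial.aeval (numbers s z) P‖ ≤ T ^ (-B₀)}) hε hC₀ h0 R (by
      rintro z ⟨hzK, hzI⟩ T hT4 hT1 hT2
      refine ⟨⟨hzK, hT1⟩, ?_⟩
      unfold Independent at hzI
      push Not at hzI
      obtain ⟨P, hP0, hPd, hPc, hPv⟩ := hzI
      have hz1 := height_ge z
      refine ⟨P, hP0, hPd, fun e => (hPc e).trans (Real.rpow_le_rpow (by linarith) hT1 (Nat.cast_nonneg _)),
        hPv.trans ?_⟩
      have hB1 : 0 ≤ B₁ := le_max_right _ _
      have e1 : (height z) ^ (-(2 * B₁)) ≤ (T / 2) ^ (-(2 * B₁)) :=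
        Real.rpow_le_rpow_of_nonpos (by linarith) (by linarith) (by linarith)
      have e2 : (T / 2) ^ (-(2 * B₁)) = ((T / 2) ^ (2 : ℝ)) ^ (-B₁) := by
        rw [← Real.rpow_mul (by linarith)]
        congr 1
        ring
      have e3 : ((T / 2) ^ (2 : ℝ)) ^ (-B₁) ≤ T ^ (-B₁) := by
        apply Real.rpow_le_rpow_of_nonpos (by linarith) _ (by linarith)
        rw [Real.rpow_two]
        nlinarith
      have e4 : T ^ (-B₁) ≤ T ^ (-B₀) :=
        Real.rpow_le_rpow_of_exponent_le (by linarith) (neg_le_neg (le_max_left _ _))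
      linarith)
  obtain ⟨E, hE, hE2⟩ := Pool.Agent.H107.ME.dim_family (P := K) (fun z => (z : ℂ)) (fun z => height z) height_ge
    (s := ε) (σ := w) hε.le hw (fun _ : Unit => R) (fun _ ε' hε' => ⟨C', fun X hX => by
      obtain ⟨h1, h2⟩ := hC' X hX
      refine ⟨h1, h2.trans ?_⟩
      have hC'0 : 0 ≤ C' := by
        have h3 := (hC' 1 le_rfl).2
        rw [Real.one_rpow, mul_one] at h3
        exact (Nat.cast_nonneg _).trans h3
      exact mul_le_mul_of_nonneg_left (Real.rpow_le_rpow_of_exponent_le hX (by linarith)) hC'0⟩)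
  exact ⟨2 * B₁, E, hE, fun z₀ hz₀ => hE2 z₀ hz₀ ()⟩

lemma dim_inter {f : ℕ → Set ℂ} {w : ℝ} (hw : 0 < w) (h : ∀ m : ℕ, dimH (f m) ≤ ENNReal.ofReal (1 / ((m : ℝ) + 1) / w)) :
    dimH (⋂ m, f m) = 0 := by
  refine le_antisymm (ENNReal.le_of_forall_pos_le_add fun ε hε _ => ?_) (zero_le)
  rw [zero_add]
  obtain ⟨m, hm⟩ := exists_nat_gt (1 / (w * ε))
  have h1 : dimH (⋂ m, f m) ≤ dimH (f m) := dimH_mono (Set.iInter_subset _ _)
  refine h1.trans ((h m).trans ?_)
  have hε' : (0 : ℝ) < ε := by exact_mod_cast hε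
  have h2 : 1 / ((m : ℝ) + 1) / w ≤ (ε : ℝ) := by
    rw [div_lt_iff₀ (by positivity)] at hm
    rw [div_div, div_le_iff₀ (by positivity)]
    nlinarith
  calc ENNReal.ofReal (1 / ((m : ℝ) + 1) / w) ≤ ENNReal.ofReal ε := ENNReal.ofReal_le_ofReal h2
    _ = ε := ENNReal.ofReal_coe_nnreal

lemma main (hS : Stm) {p : ℕ} (s : Fin p → ℝ) (hs0 : ∀ i, 0 < s i)
    (hs : ∀ c : Fin p → ℤ, ∑ i, (c i : ℝ) * s i = 0 → c = 0) :
    ∃ E : Set ℂ, dimH E = 0 ∧ ∀ z₀ : ℂ, 0 < z₀.im → z₀ ∉ E → ∀ w : ℝ, 0 < w →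
      ∀ (K : IntermediateField ℚ ℂ) [NumberField K] (d : ℕ) (A : ℝ), ∃ B : ℝ,
        {z : K | ‖(z : ℂ) - z₀‖ ≤ height z ^ (-w) ∧ ¬ Independent s d A B z}.Finite := by
  classical
  have hcf : Countable {K : IntermediateField ℚ ℂ // FiniteDimensional ℚ K} := Pool.Agent.V11286.NE.countable_fields.to_subtype
  have hnf : ∀ K : {K : IntermediateField ℚ ℂ // FiniteDimensional ℚ K}, NumberField K.1 := fun K =>
    { to_charZero := inferInstance, to_finiteDimensional := K.2 }
  have key : ∀ (K : {K : IntermediateField ℚ ℂ // FiniteDimensional ℚ K}) (d N A v m : ℕ), ∃ B : ℝ, ∃ E : Set ℂ,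
      dimH E ≤ ENNReal.ofReal (1 / ((m : ℝ) + 1) / (1 / ((v : ℝ) + 1))) ∧ ∀ z₀ : ℂ, z₀ ∉ E →
      letI := hnf K
      {z : K.1 | ((z : ℂ) ∈ KN N ∧ ¬ Independent s d A B z) ∧
        dist (z : ℂ) z₀ ≤ (height z) ^ (-(1 / ((v : ℝ) + 1)))}.Finite := by
    intro K d N A v m
    let _ := hnf K
    exact core hS K.1 s hs0 hs d N A (by positivity) (by positivity)
  choose B E hE hE2 using key
  refine ⟨⋃ K, ⋃ d, ⋃ N, ⋃ A, ⋃ v, ⋂ m, E K d N A v m, ?_, fun z₀ hz₀ hzE w hw K _ d A => ?_⟩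
  · simp only [dimH_iUnion]
    simp only [dim_inter (show (0 : ℝ) < 1 / ((_ : ℝ) + 1) by positivity) (hE _ _ _ _ _)]
    simp
  · obtain ⟨v, hv⟩ := exists_nat_gt (1 / w)
    obtain ⟨N, r, hr, hrN⟩ := KN_nhds hz₀
    obtain ⟨A', hA'⟩ := exists_nat_ge A
    set K' : {K : IntermediateField ℚ ℂ // FiniteDimensional ℚ K} := ⟨K, inferInstance⟩ with hK'
    have h1 : z₀ ∉ ⋂ m, E K' d N A' v m := by
      intro h2
      apply hzE
      simp only [Set.mem_iUnion]
      exact ⟨K', d, N, A', v, h2⟩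
    rw [Set.mem_iInter, not_forall] at h1
    obtain ⟨m, hm⟩ := h1
    have hfin := hE2 K' d N A' v m z₀ hm
    refine ⟨B K' d N A' v m, ?_⟩
    have hwv : 1 / ((v : ℝ) + 1) ≤ w := by
      rw [div_lt_iff₀ hw] at hv
      rw [div_le_iff₀ (by positivity)]
      nlinarith
    refine (hfin.union (height_fin (K := K) ((r / 2) ^ (-(1 / w))))).subset ?_
    rintro z ⟨hz1, hz2⟩
    have hh1 := height_ge z
    have hh0 : 0 < height z := by linarith
    by_cases hzr : ‖(z : ℂ) - z₀‖ < r
    · left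
      refine ⟨⟨hrN (by rwa [Metric.mem_ball, dist_eq_norm]), fun hI => hz2 fun P hP0 hPd hPc => hI P hP0 hPd fun e => ?_⟩, ?_⟩
      · exact (hPc e).trans (Real.rpow_le_rpow_of_exponent_le hh1 hA')
      · rw [dist_eq_norm]
        exact hz1.trans (Real.rpow_le_rpow_of_exponent_le hh1 (by linarith))
    · right
      push Not at hzr
      show height z ≤ (r / 2) ^ (-(1 / w))
      have h3 : r / 2 ≤ height z ^ (-w) := by linarith
      have h4 : (height z ^ (-w)) ^ (-(1 / w)) ≤ (r / 2) ^ (-(1 / w)) :=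
        Real.rpow_le_rpow_of_nonpos (by linarith) h3 (by
          have : 0 < 1 / w := by positivity
          linarith)
      have h5 : (height z ^ (-w)) ^ (-(1 / w)) = height z := by
        rw [← Real.rpow_mul hh0.le]
        have : -w * -(1 / w) = 1 := by field_simp
        rw [this, Real.rpow_one]
      rwa [h5] at h4

lemma stm : Stm := by
  intro K _ p d s hs0 hs C₀ hC hCpos A ε hε
  obtain ⟨D, B, C, h⟩ := Pool.Agent.Results.MP_f58a57_nt.NumberFieldPoints.result K (algebraMap K ℂ) p 1 d le_rfl s hs0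
    hs C₀ hC hCpos A ε hε
  refine ⟨B, C, fun T hT => ?_⟩
  obtain ⟨-, h1, h2⟩ := h T hT
  rw [Nat.sub_self, pow_zero, mul_one] at h2
  set f : Option (Fin p × Fin 4) ≃ Option (Fin 1 × (Fin p × Fin 4)) :=
    Equiv.optionCongr (Equiv.uniqueProd (Fin p × Fin 4) (Fin 1)).symm with hf
  have hinj : Function.Injective (fun z : K => (fun _ : Fin 1 => z)) := fun a b hab => congrFun hab 0
  have hsub : (fun z : K => (fun _ : Fin 1 => z)) ''
      {z : K | ((z : ℂ) ∈ C₀ ∧ height z ≤ T) ∧ ∃ P : MvPolynomial (Option (Fin p × Fin 4)) K, P ≠ 0 ∧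
      (∀ i, P.degreeOf i ≤ d) ∧ (∀ e, height (P.coeff e) ≤ T ^ A) ∧
      ‖MvPolynomial.aeval (numbers s z) P‖ ≤ T ^ (-B)} ⊆
      Pool.Agent.Results.MP_f58a57_nt.NumberFieldPoints.Exceptional (algebraMap K ℂ) 1 d s C₀ A B T := by
    rintro _ ⟨z, ⟨⟨hz1, hz2⟩, P, hP0, hPd, hPc, hPv⟩, rfl⟩
    refine ⟨fun _ => ⟨hz1, hz2⟩, MvPolynomial.rename f P, ?_, fun i => ?_, fun e => ?_, ?_⟩
    · intro h0
      exact hP0 (MvPolynomial.rename_injective f f.injective (by rw [h0, map_zero]))
    · obtain ⟨i', rfl⟩ := f.surjective i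
      rw [MvPolynomial.degreeOf_rename_of_injective f.injective]
      exact hPd i'
    · have he : e = Finsupp.mapDomain f (Finsupp.mapDomain f.symm e) := by
        rw [← Finsupp.mapDomain_comp]
        simp
      rw [he, MvPolynomial.coeff_rename_mapDomain f f.injective]
      exact hPc _
    · refine le_trans (le_of_eq ?_) hPv
      rw [MvPolynomial.eval₂_rename, MvPolynomial.aeval_def]
      congr 2
      funext i
      rcases i with _ | q
      · rfl
      · rfl
  refine ⟨Set.Finite.of_finite_image (h1.subset hsub) hinj.injOn, ?_⟩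
  refine le_trans ?_ h2
  rw [← Set.ncard_image_of_injective _ hinj]
  exact_mod_cast Set.ncard_le_ncard hsub h1

/-- **Theorem.** Let `s_1, …, s_p` be positive real numbers, linearly independent over `ℚ` (for example `p = 1`, `s_1 = 1`).
There is a set `E` of complex numbers of Hausdorff dimension zero such that for all points `z₀` of the upper half-plane
outside of `E`, all exponents `w > 0` (arbitrarily small), all number fields `K ⊂ ℂ` and all `d`, `A` there is `B` such that
all but finitely many of the points `z ∈ K` with `|z - z₀| ≤ H (z) ^ (-w)` satisfy `Independent s d A B z`: no nonzero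
polynomial with coefficients in `K` of height at most `H (z) ^ A`, of degree at most `d` in each variable, takes at the
`4 p + 1` numbers `π`, `exp (-2πi s_i z)`, `j (s_i z)`, `j' (s_i z)`, `j'' (s_i z)` a value of absolute value at most
`H (z) ^ (-B)`. -/
theorem result {p : ℕ} (s : Fin p → ℝ) (hs0 : ∀ i, 0 < s i)
    (hs : ∀ c : Fin p → ℤ, ∑ i, (c i : ℝ) * s i = 0 → c = 0) :
    ∃ E : Set ℂ, dimH E = 0 ∧ ∀ z₀ : ℂ, 0 < z₀.im → z₀ ∉ E → ∀ w : ℝ, 0 < w →
      ∀ (K : IntermediateField ℚ ℂ) [NumberField K] (d : ℕ) (A : ℝ), ∃ B : ℝ,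
        {z : K | ‖(z : ℂ) - z₀‖ ≤ height z ^ (-w) ∧ ¬ Independent s d A B z}.Finite :=
  main stm s hs0 hs

end Pool.Agent.Results.MP_ede373_nt.NearPoints
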