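import Pool.Agent.Results.MP_ede373_nt.ComparableGrowth
import Pool.Agent.V11300.PA.Rat

/-!
# Values of `j`, `j'` and `j''` at several points of comparable height, for ALL the rational parameters near almost every `p`-adic point

Let `f_1, …, f_l` be real analytic and positive on `[a, ∞)`, of comparable size, such that no nontrivial integer combination
is `O (log t)` along a sequence tending to infinity (for example `f_k (t) = s_k t` with positive `s_k`, linearly independent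
over `ℚ`). Let `p` be a prime number and `κ > 0`. For all `α ∈ ℚ_p ^ n` outside of a set of Hausdorff dimension at most
`κ (2 n - 2 / ((d + 1) ^ (3 l n + 1) + 1))` and all `A` there are `B`, `m₀` such that for all `m ≥ m₀`, with `T = p ^ (κ m)`, and
ALL the `n`-tuples `q` of rational numbers in `[a, b]` with denominators at most `T` and `|q_j - α_j|_p ≤ p ^ (-m)`: every
nonzero integral polynomial with coefficients at most `T ^ A`, of degree at most `d` in each variable, has an absolute value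
larger than `T ^ (-B)` at the `3 l n + 1` numbers `π`, `j (z)`, `j' (z)`, `j'' (z)`, `z = i f_k (q_j)`.
The definitions `numbers`, `Exceptional` are those of the starting file `ComparableGrowth`.
-/

set_option autoImplicit false

open Filter Topology

namespace Pool.Agent.Results.MP_ede373_nt.PadicNeighbourhoods

open ComparableGrowth (Exceptional numbers)

/-- **Theorem.** -/
theorem result (l n d : ℕ) (hn : 1 ≤ n) (a b K : ℝ) (hab : a < b) (f : Fin l → ℝ → ℝ)
    (hf : ∀ k, AnalyticOnNhd ℝ (f k) (Set.Ici a)) (hpos : ∀ k, ∀ t, a ≤ t → 0 < f k t)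
    (hK : ∀ k i, ∀ᶠ t in atTop, f i t ≤ K * f k t)
    (hH : ∀ c : Fin l → ℤ, c ≠ 0 → Tendsto (fun t => |∑ k, (c k : ℝ) * f k t| / Real.log t) atTop atTop)
    (p : ℕ) [Fact p.Prime] (κ : ℝ) (hκ : 0 < κ) :
    ∃ E : Set (Fin n → ℚ_[p]), dimH E ≤ ENNReal.ofReal (κ * (2 * n - 2 / (((d : ℝ) + 1) ^ (3 * l * n + 1) + 1))) ∧
      ∀ α : Fin n → ℚ_[p], α ∉ E → ∀ A : ℕ, ∃ (B : ℝ) (m₀ : ℕ), ∀ m : ℕ, m₀ ≤ m → ∀ q : Fin n → ℚ,
        (∀ j, (q j : ℝ) ∈ Set.Icc a b ∧ ((q j).den : ℝ) ≤ (p : ℝ) ^ (κ * m)) →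
        (∀ j, ‖((q j : ℚ) : ℚ_[p]) - α j‖ ≤ (p : ℝ) ^ (-(m : ℝ))) →
        ∀ P : MvPolynomial (Option (Fin n × (Fin l × Fin 3))) ℤ, P ≠ 0 → (∀ x, P.degreeOf x ≤ d) →
          (∀ s, |((P.coeff s : ℤ) : ℝ)| ≤ ((p : ℝ) ^ (κ * m)) ^ (A : ℝ)) →
          ((p : ℝ) ^ (κ * m)) ^ (-B) < ‖MvPolynomial.aeval (numbers f q) P‖ := by
  obtain ⟨E, h1, h2⟩ := Pool.Agent.V11300.PA.rational_points p hn (Pool.Agent.V11300.PA.beta_nonneg d (3 * l * n + 1)) hκ
    (fun A B T => Exceptional n d f a b A B T) (fun A β hA hβ => ComparableGrowth.result l n d hn A a b β K hA hab hβ f hf hpos hK hH)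
  refine ⟨E, ?_, fun α hα A => ?_⟩
  · have e : (2 * n - 2 / (((d : ℝ) + 1) ^ (3 * l * n + 1) + 1) : ℝ) =
        2 * ((n : ℝ) - 1) + (2 - 2 / (((d : ℝ) + 1) ^ (3 * l * n + 1) + 1)) := by ring
    rw [e]
    exact h1
  · obtain ⟨B, m₀, h⟩ := h2 α hα A
    refine ⟨B, m₀, fun m hm q hq hd P hP0 hPd hPc => ?_⟩
    by_contra hcon
    rw [not_lt] at hcon
    exact h m hm q hd ⟨hq, P, hP0, hPd, hPc, hcon⟩

end Pool.Agent.Results.MP_ede373_nt.PadicNeighbourhoods
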